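import Pool.Agent.H4.SE.Targets

/-! # MP_45b854_al, ER: a function which is rarely different from `none` -/

set_option autoImplicit false
set_option linter.unusedVariables false

open Finset
open scoped Classical

namespace Pool.Agent.H69.SE4

open Pool.Agent.H4.SE

theorem mem_fib {Ω α : Type} [Fintype Ω] (f : Ω → α) (x y : Ω) :
    y ∈ @Finset.filter Ω (fun y => f y = f x) (fun _ => Classical.propDecidable _) univ ↔
      f y = f x := by
  rw [@mem_filter Ω (fun y => f y = f x) (fun _ => Classical.propDecidable _) univ y]
  exact ⟨fun h => h.2, fun h => ⟨mem_univ _, h⟩⟩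

/-- the sum of the inverse sizes of the fibres -/
theorem sum_inv_fib {Ω γ : Type} [Fintype Ω] [Fintype γ] (B : Ω → Option γ) :
    ∑ x ∈ univ.filter (fun x => B x ≠ none), (1 : ℝ) / fib B x ≤ Fintype.card γ := by
  rw [← sum_fiberwise_of_maps_to (s := univ.filter (fun x => B x ≠ none))
    (t := (univ : Finset (Option γ)).erase none) (g := B)
    (fun x hx => mem_erase.2 ⟨(mem_filter.1 hx).2, mem_univ _⟩)]
  have h1 : ∀ j ∈ (univ : Finset (Option γ)).erase none,
      ∑ x ∈ (univ.filter (fun x => B x ≠ none)).filter (fun x => B x = j),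
        (1 : ℝ) / fib B x ≤ 1 := by
    intro j hj
    set s := (univ.filter (fun x => B x ≠ none)).filter (fun x => B x = j) with hs
    by_cases h0 : s = ∅
    · rw [h0, sum_empty]
      exact zero_le_one
    · have hpos : 0 < s.card := card_pos.2 (nonempty_iff_ne_empty.2 h0)
      have hpos' : (0 : ℝ) < s.card := by exact_mod_cast hpos
      calc ∑ x ∈ s, (1 : ℝ) / fib B x ≤ ∑ _x ∈ s, (1 : ℝ) / s.card := by
            refine sum_le_sum fun x hx => ?_
            apply one_div_le_one_div_of_le hpos'
            have : s.card ≤ fib B x := by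
              unfold fib
              refine card_le_card fun y hy => (mem_fib B x y).2 ?_
              rw [(mem_filter.1 hy).2, (mem_filter.1 hx).2]
            exact_mod_cast this
        _ = 1 := by
            rw [sum_const, nsmul_eq_mul, mul_one_div, div_self hpos'.ne']
  calc _ ≤ ∑ _j ∈ (univ : Finset (Option γ)).erase none, (1 : ℝ) := sum_le_sum h1
    _ = Fintype.card γ := by
        rw [sum_const, nsmul_eq_mul, mul_one, card_erase_of_mem (mem_univ _), card_univ,
          Fintype.card_option, Nat.add_sub_cancel]

theorem pf_ER (hEC : T_EC) : T_ER := by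
  intro Ω γ _ _ _ B p hp
  set n : ℝ := (Fintype.card Ω : ℝ) with hn
  have hn0 : 0 < n := by
    rw [hn]
    exact_mod_cast Fintype.card_pos
  set A : Finset Ω := univ.filter (fun x => B x ≠ none) with hA
  set m : ℝ := (A.card : ℝ) with hm
  have hp' : m ≤ p * n := by
    rw [hm, hA]
    exact le_trans (le_of_eq (by congr)) hp
  have hm0 : 0 ≤ m := Nat.cast_nonneg _
  have hp0 : 0 ≤ p := by
    by_contra h
    push Not at h
    nlinarith
  set K : ℝ := (Fintype.card γ : ℝ) with hK
  have hK0 : 0 ≤ K := Nat.cast_nonneg _
  have hlogK : 0 ≤ Real.log (K + 1) := Real.log_nonneg (by linarith)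
  have hfib : ∀ x, 1 ≤ fib B x := fun x => by
    unfold fib
    exact card_pos.2 ⟨x, (mem_fib B x x).2 rfl⟩
  have hfib' : ∀ x, (0 : ℝ) < fib B x := fun x => by exact_mod_cast hfib x
  have hcomp : ((univ.filter (fun x => ¬ B x ≠ none)).card : ℝ) = n - m := by
    have h := card_filter_add_card_filter_not (s := (univ : Finset Ω)) (fun x => B x ≠ none)
    rw [card_univ] at h
    have h' : (A.card : ℝ) + ((univ.filter (fun x => ¬ B x ≠ none)).card : ℝ) = n := by
      rw [hn, ← h]
      push_cast
      rfl
    linarith
  have hsplit : ∑ x, (Real.log n - Real.log (fib B x)) =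
      ∑ x ∈ A, (Real.log n - Real.log (fib B x)) +
      ∑ x ∈ univ.filter (fun x => ¬ B x ≠ none), (Real.log n - Real.log (fib B x)) :=
    (sum_filter_add_sum_filter_not univ (fun x => B x ≠ none) _).symm
  -- the points with value `none`
  have h1 : ∑ x ∈ univ.filter (fun x => ¬ B x ≠ none), (Real.log n - Real.log (fib B x)) ≤ m := by
    set N := univ.filter (fun x => ¬ B x ≠ none) with hN
    by_cases h0 : N = ∅
    · rw [h0, sum_empty]
      exact hm0
    · have hpos : 0 < n - m := by
        rw [← hcomp]
        exact_mod_cast card_pos.2 (nonempty_iff_ne_empty.2 h0)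
      have hf : ∀ x ∈ N, (fib B x : ℝ) = n - m := by
        intro x hx
        have hx' : B x = none := not_not.1 (mem_filter.1 hx).2
        have he : fib B x = N.card := by
          unfold fib
          refine congrArg card (Finset.ext fun y => ?_)
          rw [mem_fib, hN, mem_filter, hx', not_not]
          exact ⟨fun h => ⟨mem_univ _, h⟩, fun h => h.2⟩
        rw [he, ← hcomp]
      have he : ∑ x ∈ N, (Real.log n - Real.log (fib B x)) =
          (n - m) * (Real.log n - Real.log (n - m)) := by
        rw [sum_congr rfl fun x hx => by rw [hf x hx], sum_const, nsmul_eq_mul, hcomp]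
      rw [he, ← Real.log_div hn0.ne' hpos.ne']
      have h2 := Real.log_le_sub_one_of_pos (div_pos hn0 hpos)
      calc (n - m) * Real.log (n / (n - m)) ≤ (n - m) * (n / (n - m) - 1) :=
            mul_le_mul_of_nonneg_left h2 hpos.le
        _ = m := by field_simp; ring
  have hsq : Real.sqrt (m * n) ≤ Real.sqrt p * n := by
    rw [show Real.sqrt p * n = Real.sqrt (p * n * n) by
      rw [Real.sqrt_mul (mul_nonneg hp0 hn0.le), Real.sqrt_mul hp0, mul_assoc,
        Real.mul_self_sqrt hn0.le]]
    exact Real.sqrt_le_sqrt (mul_le_mul_of_nonneg_right hp' hn0.le)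
  have hfin : ∑ x, (Real.log n - Real.log (fib B x)) ≤
      (p * Real.log (K + 1) + 2 * Real.sqrt p) * n := by
    rw [hsplit]
    by_cases hA0 : A = ∅
    · rw [hA0, sum_empty, zero_add]
      have hm' : m = 0 := by rw [hm, hA0, card_empty, Nat.cast_zero]
      refine h1.trans ?_
      rw [hm']
      have := mul_nonneg hp0 hlogK
      have := Real.sqrt_nonneg p
      positivity
    · have hmpos : 0 < m := by
        rw [hm]
        exact_mod_cast card_pos.2 (nonempty_iff_ne_empty.2 hA0)
      have hKpos : 1 ≤ K := by
        obtain ⟨x, hx⟩ := nonempty_iff_ne_empty.2 hA0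
        obtain ⟨c, hc⟩ := Option.ne_none_iff_exists'.1 (mem_filter.1 hx).2
        have : 0 < Fintype.card γ := Fintype.card_pos_iff.2 ⟨c⟩
        rw [hK]
        exact_mod_cast this
      have hK1 : 0 < K := by linarith
      have h2 : ∑ x ∈ A, (Real.log n - Real.log (fib B x)) ≤
          m * (Real.log n - Real.log m) + m * Real.log K := by
        have h3 : ∀ x ∈ A, Real.log n - Real.log (fib B x) ≤
            (Real.log n - Real.log m) + Real.log K + (m / K * (1 / fib B x) - 1) := by
          intro x hx
          have h4 := Real.log_le_sub_one_of_pos (x := m / K * (1 / fib B x))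
            (mul_pos (div_pos hmpos hK1) (one_div_pos.2 (hfib' x)))
          rw [Real.log_mul (div_pos hmpos hK1).ne' (one_div_pos.2 (hfib' x)).ne',
            Real.log_div hmpos.ne' hK1.ne', one_div, Real.log_inv] at h4
          rw [one_div]
          linarith
        refine (sum_le_sum h3).trans ?_
        rw [sum_add_distrib, sum_const, nsmul_eq_mul, sum_sub_distrib, sum_const, nsmul_eq_mul,
          mul_one, ← mul_sum, ← hm]
        have h5 := sum_inv_fib B
        have h6 : m / K * ∑ x ∈ A, (1 : ℝ) / fib B x ≤ m := by
          calc m / K * ∑ x ∈ A, (1 : ℝ) / fib B x ≤ m / K * K :=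
                mul_le_mul_of_nonneg_left h5 (div_nonneg hm0 hK0)
            _ = m := div_mul_cancel₀ _ hK1.ne'
        linarith
      have h7 : m * (Real.log n - Real.log m) ≤ 2 * Real.sqrt (m * n) - 2 * m := by
        rw [← Real.log_div hn0.ne' hmpos.ne']
        have h8 : Real.log (n / m) = 2 * Real.log (Real.sqrt (n / m)) := by
          rw [Real.log_sqrt (div_pos hn0 hmpos).le]
          ring
        have h9 := Real.log_le_sub_one_of_pos (Real.sqrt_pos.2 (div_pos hn0 hmpos))
        have h10 : m * Real.sqrt (n / m) = Real.sqrt (m * n) := by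
          rw [show m * n = (m * m) * (n / m) by field_simp,
            Real.sqrt_mul (mul_nonneg hm0 hm0), Real.sqrt_mul_self hm0]
        rw [h8]
        have h11 := mul_le_mul_of_nonneg_left h9 hm0
        nlinarith
      have h12 : m * Real.log K ≤ p * n * Real.log (K + 1) := by
        have h13 : Real.log K ≤ Real.log (K + 1) := Real.log_le_log hK1 (by linarith)
        exact mul_le_mul hp' h13 (Real.log_nonneg hKpos) (mul_nonneg hp0 hn0.le)
      nlinarith
  unfold ent
  rw [div_le_iff₀ hn0]
  exact hfin

end Pool.Agent.H69.SE4
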