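import Pool.Agent.H4.SE.Targets

/-! # MP_45b854_al, P2: paths through the inserted points are usually simple -/

set_option autoImplicit false
set_option linter.unusedVariables false
set_option linter.unusedSectionVars false

open Finset Equiv

namespace Pool.Agent.H69.SE4.P2

open Pool.Agent.H4.SE
open Pool.Agent.H11.SAE (lp act verts)

/-- move both entries by `τ` -/
def mvo {r : ℕ} {β : Type} (τ : Perm β) (o : Fin r → Option β × β) : Fin r → Option β × β :=
  fun i => ((o i).1.map τ, τ (o i).2)

theorem getD_mvo {r : ℕ} {β : Type} (τ : Perm β) (o : Fin r → Option β × β) (i : Fin r) :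
    (mvo τ o i).1.getD (mvo τ o i).2 = τ ((o i).1.getD (o i).2) := by
  unfold mvo
  cases h : (o i).1 with
  | none => simp
  | some a => simp

theorem mvo_mvo {r : ℕ} {β : Type} (τ τ' : Perm β) (h : ∀ x, τ' (τ x) = x)
    (o : Fin r → Option β × β) : mvo τ' (mvo τ o) = o := by
  funext i
  unfold mvo
  refine Prod.ext ?_ (h _)
  cases h' : (o i).1 with
  | none => simp
  | some a => simp [h]

end Pool.Agent.H69.SE4.P2

namespace Pool.Agent.H69.SE4

open Pool.Agent.H4.SE
open Pool.Agent.H11.SAE (lp act verts)
open P2

theorem pf_P2 (hWA : T_WA) : T_P2 := by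
  intro r d T k β _ _ _ j l hred
  obtain ⟨b0⟩ := ‹Nonempty β›
  cases hlb : lb T (j, l) with
  | none =>
    have h0 : ∀ ω : Oh r k β, ¬ ∃ s, ZZ T ω.1 (pt ω) (j, l) = some s ∧
        ¬ (verts ω.1 (T j).reverse s).Nodup := by
      rintro ω ⟨s, h, -⟩
      unfold ZZ at h
      rw [hlb] at h
      simp at h
    rw [filter_false_of_mem (fun ω _ => h0 ω)]
    simp
  | some i =>
    set L := (T j).reverse with hL
    have hlen : L.length = (T j).length := by simp [hL]
    set f : (Fin r → Perm β) → Perm β := fun σ => (pp σ (T j) (rt T (j, l)))⁻¹ with hf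
    have hZ : ∀ ω : Oh r k β, ZZ T ω.1 (pt ω) (j, l) = some (f ω.1 (pt ω i)) := by
      intro ω
      unfold ZZ
      rw [hlb]
      rfl
    classical
    set S : Finset (Σ _ : β, (Fin r → Perm β)) := (univ : Finset β).sigma fun s =>
      (univ : Finset (Fin r → Perm β)).filter fun σ => ¬ (verts σ L s).Nodup with hS
    set D : Finset (Fin r → Option β × β) := univ.filter fun o => (o i).1.getD (o i).2 = b0 with hD
    have h1 : D.card * Fintype.card β ≤ Fintype.card (Fin r → Option β × β) := by
      have h : (D ×ˢ (univ : Finset β)).card ≤ (univ : Finset (Fin r → Option β × β)).card := by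
        refine card_le_card_of_injOn (fun q => mvo (swap b0 q.2) q.1) (fun _ _ => mem_univ _) ?_
        rintro ⟨o, x⟩ h ⟨o', x'⟩ h' he
        rw [mem_coe, mem_product] at h h'
        have ho : (o i).1.getD (o i).2 = b0 := (mem_filter.1 h.1).2
        have ho' : (o' i).1.getD (o' i).2 = b0 := (mem_filter.1 h'.1).2
        have he' : mvo (swap b0 x) o = mvo (swap b0 x') o' := he
        have e1 := getD_mvo (swap b0 x) o i
        have e2 := getD_mvo (swap b0 x') o' i
        rw [ho, swap_apply_left] at e1
        rw [ho', swap_apply_left, ← he', e1] at e2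
        subst e2
        have e3 : o = o' := by
          rw [← mvo_mvo (swap b0 x) (swap b0 x) (fun y => swap_apply_self _ _ _) o,
            ← mvo_mvo (swap b0 x) (swap b0 x) (fun y => swap_apply_self _ _ _) o', he']
        rw [e3]
      rwa [card_product, card_univ, card_univ] at h
    have h2 : ((univ : Finset (Oh r k β)).filter fun ω => ∃ s, ZZ T ω.1 (pt ω) (j, l) = some s ∧
        ¬ (verts ω.1 L s).Nodup).card ≤
        S.card * (D.card * Fintype.card (Fin k → Option β × β)) := by
      have h : ((univ : Finset (Oh r k β)).filter fun ω => ∃ s, ZZ T ω.1 (pt ω) (j, l) = some s ∧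
          ¬ (verts ω.1 L s).Nodup).card ≤
          (S ×ˢ (D ×ˢ (univ : Finset (Fin k → Option β × β)))).card := by
        refine card_le_card_of_injOn (fun ω => ((⟨f ω.1 (pt ω i), ω.1⟩ : Σ _ : β, _),
          (mvo (swap (pt ω i) b0) ω.2.1, ω.2.2))) ?_ ?_
        · intro ω hω
          rw [mem_coe, mem_filter] at hω
          obtain ⟨-, s, hs, hb⟩ := hω
          rw [hZ ω] at hs
          have hs' := Option.some.inj hs
          rw [mem_coe, mem_product, mem_product]
          refine ⟨?_, ?_, mem_univ _⟩
          · rw [hS, mem_sigma]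
            refine ⟨mem_univ _, mem_filter.2 ⟨mem_univ _, ?_⟩⟩
            show ¬ (verts ω.1 L (f ω.1 (pt ω i))).Nodup
            rw [hs']
            exact hb
          · rw [hD, mem_filter]
            refine ⟨mem_univ _, ?_⟩
            show (mvo (swap (pt ω i) b0) ω.2.1 i).1.getD (mvo (swap (pt ω i) b0) ω.2.1 i).2 = b0
            rw [getD_mvo]
            exact swap_apply_left _ _
        · rintro ω - ω' - he
          rw [Prod.mk.injEq, Prod.mk.injEq, Sigma.mk.injEq] at he
          obtain ⟨⟨e1, e2⟩, e3, e4⟩ := he
          have e2' : ω.1 = ω'.1 := eq_of_heq e2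
          rw [← e2'] at e1
          have e1' : pt ω i = pt ω' i := (f ω.1).injective e1
          rw [← e1'] at e3
          have e5 : ω.2.1 = ω'.2.1 := by
            rw [← mvo_mvo (swap (pt ω i) b0) (swap (pt ω i) b0)
              (fun y => swap_apply_self _ _ _) ω.2.1,
              ← mvo_mvo (swap (pt ω i) b0) (swap (pt ω i) b0)
              (fun y => swap_apply_self _ _ _) ω'.2.1, e3]
          exact Prod.ext e2' (Prod.ext e5 e4)
      rwa [card_product, card_product, card_univ] at h
    have h3 : S.card * (Fintype.card β - (T j).length) ≤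
        Fintype.card β * (Fintype.card (Fin r → Perm β) * ((T j).length * (T j).length)) := by
      rw [hS, card_sigma, sum_mul]
      calc ∑ s : β, ((univ : Finset (Fin r → Perm β)).filter fun σ =>
            ¬ (verts σ L s).Nodup).card * (Fintype.card β - (T j).length)
          ≤ ∑ _s : β, Fintype.card (Fin r → Perm β) * ((T j).length * (T j).length) := by
            refine sum_le_sum fun s _ => ?_
            have := Pool.Agent.H11.SAE.card_not_nodup_le L s hred (T j).length hlen.le
            rwa [hlen] at this
        _ = _ := by rw [sum_const, card_univ, smul_eq_mul]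
    have h4 : Fintype.card (Oh r k β) = Fintype.card (Fin r → Perm β) *
        (Fintype.card (Fin r → Option β × β) * Fintype.card (Fin k → Option β × β)) := by
      rw [Fintype.card_prod, Fintype.card_prod]
    refine le_trans (Nat.mul_le_mul_right _ (le_trans (le_of_eq ?_) h2)) ?_
    · congr
    · rw [h4]
      calc S.card * (D.card * Fintype.card (Fin k → Option β × β)) *
            (Fintype.card β - (T j).length)
          = S.card * (Fintype.card β - (T j).length) *
            (D.card * Fintype.card (Fin k → Option β × β)) := by ring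
        _ ≤ Fintype.card β * (Fintype.card (Fin r → Perm β) * ((T j).length * (T j).length)) *
            (D.card * Fintype.card (Fin k → Option β × β)) := Nat.mul_le_mul_right _ h3
        _ = Fintype.card (Fin r → Perm β) * ((D.card * Fintype.card β) *
            Fintype.card (Fin k → Option β × β)) * (T j).length ^ 2 := by ring
        _ ≤ _ := Nat.mul_le_mul_right _ (Nat.mul_le_mul_left _ (Nat.mul_le_mul_right _ h1))

end Pool.Agent.H69.SE4
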