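import Pool.Agent.H4.SE.Targets

/-! # MP_45b854_al, PR: the image of a block of an optimal partition is contained in a block -/

set_option autoImplicit false
set_option linter.unusedVariables false

open Finset

namespace Pool.Agent.H69.SE4

open Pool.Agent.H4.SE

theorem pf_PR (hPU : T_PU) : T_PR := by
  intro α β _ _ ρ l V E φ hsub hφ Q P hQ hP B hB
  classical
  have hQp := hQ.op.pt
  have hPp := hP.pt
  set X0 : Finset α := B.image φ with hX0
  have hBE : ∀ e ∈ B, e ∈ E := fun e he => (hPp.un e).2 ⟨B, hB, he⟩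
  have hX0V : X0 ⊆ V := by
    intro a ha
    obtain ⟨e, he, rfl⟩ := mem_image.1 ha
    exact hφ e (hBE e he)
  have hQV : ∀ X ∈ Q, X ⊆ V := fun X hX a ha => (hQp.un a).2 ⟨X, hX, ha⟩
  have hQne : ∀ X ∈ Q, X.Nonempty := fun X hX => by
    rw [nonempty_iff_ne_empty]
    rintro rfl
    exact hQp.ne hX
  have hPne : ∀ X ∈ P, X.Nonempty := fun X hX => by
    rw [nonempty_iff_ne_empty]
    rintro rfl
    exact hPp.ne hX
  set S : Finset (Finset α) := Q.filter fun X => (X0 ∩ X).Nonempty with hS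
  have hSQ : S ⊆ Q := filter_subset _ _
  have hcov : ∀ a ∈ X0, ∃ X ∈ S, a ∈ X := by
    intro a ha
    obtain ⟨X, hX, haX⟩ := (hQp.un a).1 (hX0V ha)
    exact ⟨X, mem_filter.2 ⟨hX, ⟨a, mem_inter.2 ⟨ha, haX⟩⟩⟩, haX⟩
  obtain ⟨e0, he0⟩ := hPne B hB
  obtain ⟨X1, hX1, ha1⟩ := hcov (φ e0) (mem_image_of_mem φ he0)
  by_cases h1 : S.card ≤ 1
  · refine ⟨X1, hSQ hX1, fun a ha => ?_⟩
    obtain ⟨X, hX, haX⟩ := hcov a ha
    rwa [card_le_one.1 h1 X hX X1 hX1] at haX
  exfalso
  set U : Finset α := S.biUnion id with hU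
  have hXU : ∀ X ∈ S, X ⊆ U := fun X hX a ha => mem_biUnion.2 ⟨X, hX, ha⟩
  have hX0U : X0 ⊆ U := fun a ha => by
    obtain ⟨X, hX, haX⟩ := hcov a ha
    exact hXU X hX haX
  have hUne : U.Nonempty := (hQne X1 (hSQ hX1)).mono (hXU X1 hX1)
  have hUQ : U ∉ Q \ S := by
    intro h
    rw [mem_sdiff] at h
    have hne : X1 ≠ U := fun h' => h.2 (h' ▸ hX1)
    have := hQp.dis X1 (hSQ hX1) U h.1 hne
    exact (hQne X1 (hSQ hX1)).ne_empty (disjoint_self_iff_empty _ |>.1
      (this.mono_right (hXU X1 hX1)))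
  -- the new partition of `V`
  have hQ' : IsPart V (insert U (Q \ S)) := by
    refine ⟨?_, ?_, ?_⟩
    · intro h
      rcases mem_insert.1 h with h | h
      · exact hUne.ne_empty h.symm
      · exact hQp.ne (mem_sdiff.1 h).1
    · have key : ∀ Y ∈ Q \ S, Disjoint U Y := by
        intro Y hY
        rw [mem_sdiff] at hY
        rw [hU, disjoint_biUnion_left]
        intro X hX
        exact hQp.dis X (hSQ hX) Y hY.1 fun h => hY.2 (h ▸ hX)
      intro X hX Y hY hXY
      rcases mem_insert.1 hX with rfl | hX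
      · rcases mem_insert.1 hY with rfl | hY
        · exact absurd rfl hXY
        · exact key Y hY
      · rcases mem_insert.1 hY with rfl | hY
        · exact (key X hX).symm
        · exact hQp.dis X (mem_sdiff.1 hX).1 Y (mem_sdiff.1 hY).1 hXY
    · intro a
      constructor
      · intro ha
        obtain ⟨X, hX, haX⟩ := (hQp.un a).1 ha
        by_cases h : X ∈ S
        · exact ⟨U, mem_insert_self _ _, hXU X h haX⟩
        · exact ⟨X, mem_insert_of_mem (mem_sdiff.2 ⟨hX, h⟩), haX⟩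
      · rintro ⟨X, hX, haX⟩
        rcases mem_insert.1 hX with rfl | hX
        · obtain ⟨Y, hY, haY⟩ := mem_biUnion.1 haX
          exact hQV Y (hSQ hY) haY
        · exact hQV X (mem_sdiff.1 hX).1 haX
  -- the new partition of `E`
  set g : Finset α → Finset β := fun X => B.filter fun e => φ e ∈ X with hg
  have hgB : ∀ X, g X ⊆ B := fun X => filter_subset _ _
  have hgne : ∀ X ∈ S, (g X).Nonempty := by
    intro X hX
    obtain ⟨a, ha⟩ := (mem_filter.1 hX).2
    rw [mem_inter] at ha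
    obtain ⟨e, he, rfl⟩ := mem_image.1 ha.1
    exact ⟨e, mem_filter.2 ⟨he, ha.2⟩⟩
  have hgdis : ∀ X ∈ S, ∀ Y ∈ S, X ≠ Y → Disjoint (g X) (g Y) := by
    intro X hX Y hY hXY
    rw [disjoint_left]
    intro e he he'
    exact disjoint_left.1 (hQp.dis X (hSQ hX) Y (hSQ hY) hXY) (mem_filter.1 he).2
      (mem_filter.1 he').2
  have hginj : Set.InjOn g S := by
    intro X hX Y hY he
    by_contra hne
    have h := hgdis X hX Y hY hne
    rw [← he, disjoint_self_iff_empty] at h
    exact (hgne X hX).ne_empty h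
  have hPg : ∀ Y ∈ P.erase B, ∀ X ∈ S, Disjoint (g X) Y := by
    intro Y hY X hX
    rw [mem_erase] at hY
    exact (hPp.dis B hB Y hY.2 (Ne.symm hY.1)).mono_left (hgB X)
  have hdis : Disjoint (P.erase B) (S.image g) := by
    rw [disjoint_left]
    intro Y hY hY'
    obtain ⟨X, hX, rfl⟩ := mem_image.1 hY'
    have h := hPg _ hY X hX
    rw [disjoint_self_iff_empty] at h
    exact (hgne X hX).ne_empty h
  have hP' : IsPart E (P.erase B ∪ S.image g) := by
    refine ⟨?_, ?_, ?_⟩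
    · intro h
      rcases mem_union.1 h with h | h
      · exact hPp.ne (mem_of_mem_erase h)
      · obtain ⟨X, hX, he⟩ := mem_image.1 h
        exact (hgne X hX).ne_empty he
    · intro X hX Y hY hXY
      rcases mem_union.1 hX with hX | hX
      · rcases mem_union.1 hY with hY | hY
        · exact hPp.dis X (mem_of_mem_erase hX) Y (mem_of_mem_erase hY) hXY
        · obtain ⟨Z, hZ, rfl⟩ := mem_image.1 hY
          exact (hPg X hX Z hZ).symm
      · obtain ⟨Z, hZ, rfl⟩ := mem_image.1 hX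
        rcases mem_union.1 hY with hY | hY
        · exact hPg Y hY Z hZ
        · obtain ⟨Z', hZ', rfl⟩ := mem_image.1 hY
          exact hgdis Z hZ Z' hZ' fun h => hXY (by rw [h])
    · intro e
      constructor
      · intro he
        obtain ⟨X, hX, heX⟩ := (hPp.un e).1 he
        by_cases h : X = B
        · subst h
          obtain ⟨Z, hZ, heZ⟩ := hcov (φ e) (mem_image_of_mem φ heX)
          exact ⟨g Z, mem_union_right _ (mem_image_of_mem g hZ), mem_filter.2 ⟨heX, heZ⟩⟩
        · exact ⟨X, mem_union_left _ (mem_erase.2 ⟨h, hX⟩), heX⟩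
      · rintro ⟨X, hX, heX⟩
        rcases mem_union.1 hX with hX | hX
        · exact (hPp.un e).2 ⟨X, mem_of_mem_erase hX, heX⟩
        · obtain ⟨Z, hZ, rfl⟩ := mem_image.1 hX
          exact hBE e (hgB Z heX)
  -- values
  have v1 : vl ρ l (insert U (Q \ S)) = (ρ U - l) + ∑ X ∈ Q \ S, (ρ X - l) := by
    unfold vl
    rw [sum_insert hUQ]
  have v2 : vl ρ l Q = ∑ X ∈ Q \ S, (ρ X - l) + ∑ X ∈ S, (ρ X - l) := by
    unfold vl
    rw [sum_sdiff hSQ]
  have v3 : vl (fun B => ρ (B.image φ)) l P = ∑ X ∈ P.erase B, (ρ (X.image φ) - l) +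
      (ρ X0 - l) := by
    unfold vl
    rw [sum_erase_add _ _ hB]
  have hgi : ∀ X, (g X).image φ = X0 ∩ X := by
    intro X
    ext a
    rw [mem_image, mem_inter, hX0, mem_image]
    constructor
    · rintro ⟨e, he, rfl⟩
      exact ⟨⟨e, hgB X he, rfl⟩, (mem_filter.1 he).2⟩
    · rintro ⟨⟨e, he, rfl⟩, hX⟩
      exact ⟨e, mem_filter.2 ⟨he, hX⟩, rfl⟩
  have v4 : vl (fun B => ρ (B.image φ)) l (P.erase B ∪ S.image g) =
      ∑ X ∈ P.erase B, (ρ (X.image φ) - l) + ∑ X ∈ S, (ρ (X0 ∩ X) - l) := by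
    unfold vl
    rw [sum_union hdis, sum_image hginj]
    congr 1
    exact sum_congr rfl fun X _ => by show ρ ((g X).image φ) - l = _; rw [hgi]
  have hpu := hPU α ρ V hsub S (fun X hX => hQV X (hSQ hX))
    (fun X hX Y hY h => hQp.dis X (hSQ hX) Y (hSQ hY) h) X0 hX0V
  rw [← hU, union_eq_right.2 hX0U] at hpu
  have h5 := hP.mn _ hP'
  have h6 : vl ρ l (insert U (Q \ S)) ≤ vl ρ l Q := by
    rw [v3, v4] at h5
    rw [v1, v2]
    rw [sum_sub_distrib] at h5 ⊢
    rw [sum_sub_distrib] at ⊢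
    simp only [sum_sub_distrib] at h5 ⊢
    linarith
  have h7 := hQ.cd _ hQ' h6
  rw [card_insert_of_notMem hUQ, card_sdiff_of_subset hSQ] at h7
  have h8 := card_le_card hSQ
  omega

end Pool.Agent.H69.SE4
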